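import Pool.Agent.Helper63.P705.NR.Goals

/-!
# MP_705522_gt, region near `p = 2`: the tail integral in the case `b ≥ 0.8 a` (`GK3`)
-/

namespace Pool.Agent.Helper9.NR

open MeasureTheory Set Filter Topology
open Pool.Agent.Helper53.PT
open Pool.Agent.Helper63.P705.NR

theorem exp_two_lo : (7.389 : ℝ) ≤ Real.exp 2 := by
  have h := Real.exp_one_gt_d9
  have h2 : Real.exp 2 = Real.exp 1 * Real.exp 1 := by rw [← Real.exp_add]; norm_num
  rw [h2]; nlinarith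

theorem exp_2704 : (14.93 : ℝ) ≤ Real.exp 2.704 := by
  have h1 : Real.exp 2.704 = Real.exp 2 * Real.exp 0.704 := by rw [← Real.exp_add]; norm_num
  have h2 : (2.0216 : ℝ) ≤ Real.exp 0.704 := by
    have := Real.sum_le_exp_of_nonneg (x := 0.704) (by norm_num) 6
    refine le_trans ?_ this
    norm_num [Finset.sum_range_succ, Nat.factorial]
  rw [h1]; nlinarith [exp_two_lo]

theorem exp_small {s : ℝ} (hs : 5.408 ≤ s) : Real.exp (-s / 2) ≤ 0.067 := by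
  have h1 : Real.exp (-s / 2) ≤ Real.exp (-2.704) := Real.exp_le_exp.2 (by linarith)
  have h2 : Real.exp (-2.704) ≤ 0.067 := by
    rw [Real.exp_neg, inv_le_comm₀ (Real.exp_pos _) (by norm_num)]
    exact le_trans (by norm_num) exp_2704
  linarith

theorem exp_v4 {v : ℝ} (hv : 2.6 ≤ v) : Real.exp (-(0.4 * v ^ 2)) ≤ 3.07 / v ^ 4 := by
  have hv0 : 0 < v := by linarith
  have hy : 0 ≤ 0.4 * v ^ 2 - 2.704 := by nlinarith
  set y := 0.4 * v ^ 2 - 2.704 with hyd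
  have h1 : Real.exp (0.4 * v ^ 2) = Real.exp 2.704 * Real.exp y := by
    rw [← Real.exp_add]; congr 1; rw [hyd]; ring
  have h2 := Real.quadratic_le_exp_of_nonneg hy
  have h3 : v ^ 4 = 6.25 * (y + 2.704) ^ 2 := by rw [hyd]; ring
  rw [Real.exp_neg, le_div_iff₀ (by positivity), inv_mul_le_iff₀ (Real.exp_pos _), h1, h3]
  have h4 : 14.93 * (1 + y + y ^ 2 / 2) ≤ Real.exp 2.704 * Real.exp y :=
    mul_le_mul exp_2704 h2 (by positivity) (Real.exp_pos _).le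
  nlinarith

theorem ww {s v : ℝ} (hv : 0 < v) (hs : 0.8 * v ^ 2 ≤ s) : 0.0963 / √s ≤ 0.10767 / v := by
  have hs0 : 0 < s := by nlinarith [pow_pos hv 2]
  have hw : 0 < √s := Real.sqrt_pos.2 hs0
  have hw2 : √s ^ 2 = s := Real.sq_sqrt hs0.le
  rw [div_le_div_iff₀ hw hv]
  refine (pow_le_pow_iff_left₀ (by positivity) (by positivity) (two_ne_zero)).1 ?_
  rw [mul_pow, mul_pow, hw2]
  nlinarith [pow_pos hv 2]

section

variable {θ : ℝ} (hN : NF θ)
include hN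

theorem f0_small {s : ℝ} (hs : 5.408 ≤ s) : |f0 θ s| ≤ 0.067 := by
  rcases le_total s 6.76 with h | h
  · rw [abs_of_pos (hN.ppos s (by linarith) h)]
    exact (hN.pup s (by linarith)).trans (exp_small hs)
  · have hw : 2.6 ≤ √s := by
      apply Real.le_sqrt_of_sq_le
      norm_num
      linarith
    have h2 := hN.pabs (√s) hw
    rw [Real.sq_sqrt (by linarith)] at h2
    refine h2.trans ?_
    rw [div_le_iff₀ (by linarith)]
    nlinarith

theorem f0_big {s v : ℝ} (hv : 0 < v) (hs : 0.8 * v ^ 2 ≤ s) (h6 : 6.76 ≤ s) :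
    |f0 θ s| ≤ 0.10767 / v := by
  have hw : 2.6 ≤ √s := by
    apply Real.le_sqrt_of_sq_le
    norm_num
    linarith
  have h2 := hN.pabs (√s) hw
  rw [Real.sq_sqrt (by linarith)] at h2
  exact h2.trans (ww hv hs)

theorem f1_one {s v : ℝ} (hv : 2.6 ≤ v) (hs : 0.8 * v ^ 2 ≤ s) :
    |f1 θ s| ≤ 3.07 / v ^ 4 + 0.10767 / v := by
  have hs0 : 0 < s := by nlinarith
  have h2 := hN.psi1 (√s) (Real.sqrt_pos.2 hs0)
  rw [Real.sq_sqrt hs0.le] at h2
  have h3 : Real.exp (-s / 2) ≤ Real.exp (-(0.4 * v ^ 2)) := Real.exp_le_exp.2 (by linarith)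
  linarith [exp_v4 hv, ww (by linarith : 0 < v) hs]

theorem f1_two {s v : ℝ} (hv : 2.6 ≤ v) (hs : 0.8 * v ^ 2 ≤ s) :
    |f1 θ s| ≤ 2.625 / v ^ 2 := by
  have hv0 : 0 < v := by linarith
  have hs0 : 0 < s := by nlinarith
  have h2 := hN.psi2 (√s) (Real.sqrt_pos.2 hs0)
  rw [Real.sq_sqrt hs0.le] at h2
  refine h2.trans ?_
  rw [div_le_div_iff₀ hs0 (by positivity)]
  linarith

theorem Ga_bd {s v : ℝ} (hv : 2.6 ≤ v) (hs : 0.8 * v ^ 2 ≤ s) :
    |Ga θ s| ≤ 20 / v ^ 2 := by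
  have hv0 : 0 < v := by linarith
  have hs0 : 0 < s := by nlinarith
  have h2 := hN.gam (√s) (Real.sqrt_pos.2 hs0)
  rw [Real.sq_sqrt hs0.le] at h2
  refine h2.trans ?_
  rw [div_le_div_iff₀ hs0 (by positivity)]
  linarith

theorem f0_diff {v sb M : ℝ} (hsb : 0.8 * v ^ 2 ≤ sb) (hsv : sb ≤ v ^ 2)
    (hM : ∀ s, 0.8 * v ^ 2 ≤ s → |f1 θ s| ≤ M) :
    |f0 θ sb - f0 θ (v ^ 2)| ≤ M / 2 * (v ^ 2 - sb) := by
  have th0 : 0 < θ := by linarith [hN.th0]
  have h := Convex.norm_image_sub_le_of_norm_hasDerivWithin_le (𝕜 := ℝ) (f := f0 θ)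
    (f' := fun x => -(f1 θ x) / 2) (s := Icc sb (v ^ 2)) (C := M / 2)
    (fun x _ => (hasDerivAt_f0 th0 hN.th1 x).hasDerivWithinAt)
    (fun x hx => by
      rw [Real.norm_eq_abs, abs_div, abs_neg, abs_two]
      have := hM x (hsb.trans hx.1)
      linarith) (convex_Icc _ _) (right_mem_Icc.2 hsv) (left_mem_Icc.2 hsv)
  rw [Real.norm_eq_abs, Real.norm_eq_abs, abs_sub_comm sb, abs_of_nonneg (sub_nonneg.2 hsv)] at h
  exact h

theorem GG_diff {v sb : ℝ} (hv : 2.6 ≤ v) (hsb : 0.8 * v ^ 2 ≤ sb) (hsv : sb ≤ v ^ 2) :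
    |GG θ (v ^ 2) - GG θ sb| ≤ 10 / v ^ 2 * (v ^ 2 - sb) := by
  have th0 : 0 < θ := by linarith [hN.th0]
  have hd : 0 < de θ := by unfold de; linarith [hN.th1]
  have h := Convex.norm_image_sub_le_of_norm_hasDerivWithin_le (𝕜 := ℝ) (f := GG θ)
    (f' := fun x => Ga θ x / 2) (s := Icc sb (v ^ 2)) (C := 10 / v ^ 2)
    (fun x _ => by
      have h1 := ((hasDerivAt_f1 th0 hN.th1 x).sub (hasDerivAt_f0 th0 hN.th1 x)).div_const (de θ)
      refine (h1.congr_deriv ?_).hasDerivWithinAt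
      unfold Ga
      field_simp
      ring)
    (fun x hx => by
      rw [Real.norm_eq_abs, abs_div, abs_two]
      have := Ga_bd hN hv (hsb.trans hx.1)
      have h2 : 10 / v ^ 2 = 20 / v ^ 2 / 2 := by ring
      rw [h2]
      linarith) (convex_Icc _ _) (left_mem_Icc.2 hsv) (right_mem_Icc.2 hsv)
  rw [Real.norm_eq_abs, Real.norm_eq_abs, abs_of_nonneg (sub_nonneg.2 hsv)] at h
  exact h

theorem ker_bd {v sb M : ℝ} (hv : 2.6 ≤ v) (hsb : 0.8 * v ^ 2 ≤ sb) (hsv : sb ≤ v ^ 2)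
    (hM : ∀ s, 0.8 * v ^ 2 ≤ s → |f1 θ s| ≤ M) :
    |GG θ (v ^ 2) * f0 θ sb - f0 θ (v ^ 2) * GG θ sb| ≤
      (v ^ 2 - sb) * (1.66 * M / v + 0.963 / v ^ 3) := by
  have hv0 : 0 < v := by linarith
  have h1 := f0_diff hN hsb hsv hM
  have h2 := GG_diff hN hv hsb hsv
  have h3 : |f0 θ (v ^ 2)| ≤ 0.0963 / v := hN.pabs v hv
  have h4 : 0 ≤ GG θ (v ^ 2) := hN.gnn _ (by positivity)
  have h5 : GG θ (v ^ 2) ≤ 3.32 / v := by
    rw [le_div_iff₀ hv0, mul_comm]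
    exact hN.g2 v hv0.le
  have e : GG θ (v ^ 2) * f0 θ sb - f0 θ (v ^ 2) * GG θ sb =
      GG θ (v ^ 2) * (f0 θ sb - f0 θ (v ^ 2)) + f0 θ (v ^ 2) * (GG θ (v ^ 2) - GG θ sb) := by ring
  rw [e]
  refine (abs_add_le _ _).trans ?_
  rw [abs_mul, abs_mul, abs_of_nonneg h4]
  have h6 : GG θ (v ^ 2) * |f0 θ sb - f0 θ (v ^ 2)| ≤ 3.32 / v * (M / 2 * (v ^ 2 - sb)) :=
    mul_le_mul h5 h1 (abs_nonneg _) (by positivity)
  have h7 : |f0 θ (v ^ 2)| * |GG θ (v ^ 2) - GG θ sb| ≤ 0.0963 / v * (10 / v ^ 2 * (v ^ 2 - sb)) :=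
    mul_le_mul h3 h2 (abs_nonneg _) (by positivity)
  have h8 : 3.32 / v * (M / 2 * (v ^ 2 - sb)) + 0.0963 / v * (10 / v ^ 2 * (v ^ 2 - sb)) =
      (v ^ 2 - sb) * (1.66 * M / v + 0.963 / v ^ 3) := by
    field_simp
    ring
  linarith

theorem prod_bd {n : ℕ} {t : Fin n → ℝ} {i j m : Fin n} (hij : i ≠ j) (hmi : m ≠ i) (hmj : m ≠ j)
    {ξ v : ℝ} (hv : 2.6 ≤ v) (hl : ∀ l, 0.8 * v ^ 2 ≤ t l * ξ ^ 2) (hm : 6.76 ≤ t m * ξ ^ 2) :
    |∏ l ∈ (Finset.univ.erase i).erase j, f0 θ (t l * ξ ^ 2)| ≤ 0.10767 / v * 0.067 ^ (n - 3) := by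
  have hmem : m ∈ (Finset.univ.erase i).erase j := by simp [hmi, hmj]
  have hmem1 : j ∈ Finset.univ.erase i := by simp [Ne.symm hij]
  rw [← Finset.mul_prod_erase _ _ hmem, abs_mul, Finset.abs_prod]
  have hcard : (((Finset.univ.erase i).erase j).erase m).card = n - 3 := by
    rw [Finset.card_erase_of_mem hmem, Finset.card_erase_of_mem hmem1,
      Finset.card_erase_of_mem (Finset.mem_univ i), Finset.card_univ, Fintype.card_fin]
    omega
  refine mul_le_mul (f0_big hN (by linarith) (hl m) hm) ?_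
    (Finset.prod_nonneg fun _ _ => abs_nonneg _) (by positivity)
  refine (Finset.prod_le_prod (fun _ _ => abs_nonneg _)
    (g := fun _ => (0.067 : ℝ)) fun l _ => f0_small hN ?_).trans (by rw [Finset.prod_const, hcard])
  nlinarith [hl l]

/-- the pointwise bound of the integrand -/
theorem KJ_bd {n : ℕ} {t : Fin n → ℝ} {i j m : Fin n} (ht : ∀ l, t j ≤ t l) (hij : i ≠ j)
    (hmi : m ≠ i) (hmj : m ≠ j) (hmax : ∀ l, t l ≤ t i) (ha : 0 < t i) (h8 : 0.8 * t i ≤ t j)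
    {ξ M : ℝ} (hv : 2.6 ≤ √(t i) * ξ) (hm : 6.76 ≤ t m * ξ ^ 2)
    (hM : ∀ s, 0.8 * (√(t i) * ξ) ^ 2 ≤ s → |f1 θ s| ≤ M) :
    |KJ θ t i j ξ| ≤ (t i - t j) / t i * 0.067 ^ (n - 3) *
      (0.1788 * M + 0.1037 / (√(t i) * ξ) ^ 2) := by
  have hr : √(t i) ^ 2 = t i := Real.sq_sqrt ha.le
  set v := √(t i) * ξ with hvd
  have hv0 : 0 < v := by linarith
  have hvs : v ^ 2 = t i * ξ ^ 2 := by rw [hvd, mul_pow, hr]
  have hl : ∀ l, 0.8 * v ^ 2 ≤ t l * ξ ^ 2 := fun l => by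
    rw [hvs, ← mul_assoc]
    exact mul_le_mul_of_nonneg_right (h8.trans (ht l)) (sq_nonneg ξ)
  have hsv : t j * ξ ^ 2 ≤ v ^ 2 := by
    rw [hvs]
    exact mul_le_mul_of_nonneg_right (hmax j) (sq_nonneg ξ)
  have hM0 : 0 ≤ M := (abs_nonneg _).trans (hM _ (le_refl _))
  have h1 := ker_bd hN hv (hl j) hsv hM
  have h2 := prod_bd hN hij hmi hmj hv hl hm
  have hd : v ^ 2 - t j * ξ ^ 2 = (t i - t j) / t i * v ^ 2 := by
    rw [hvs]
    field_simp
  have hab : 0 ≤ (t i - t j) / t i := div_nonneg (sub_nonneg.2 (hmax j)) ha.le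
  unfold KJ
  rw [← hvs, abs_mul]
  refine (mul_le_mul h1 h2 (abs_nonneg _) ?_).trans ?_
  · rw [hd]; positivity
  · rw [hd]
    have e : (t i - t j) / t i * v ^ 2 * (1.66 * M / v + 0.963 / v ^ 3) *
        (0.10767 / v * 0.067 ^ (n - 3)) = (t i - t j) / t i * 0.067 ^ (n - 3) *
        (1.66 * 0.10767 * M + 0.963 * 0.10767 / v ^ 2) := by
      field_simp
    rw [e]
    refine mul_le_mul_of_nonneg_left ?_ (by positivity)
    have h3 : 0.963 * 0.10767 / v ^ 2 ≤ 0.1037 / v ^ 2 :=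
      div_le_div_of_nonneg_right (by norm_num) (by positivity)
    nlinarith

end

theorem log_nine : Real.log 9 ≤ 2.2045 := by
  have h : Real.log 9 = Real.log (9 / 8) + 3 * Real.log 2 := by
    rw [← Real.log_rpow (by norm_num), ← Real.log_mul (by norm_num) (by norm_num)]
    norm_num
  have h1 : Real.log (9 / 8) ≤ 9 / 8 - 1 := Real.log_le_sub_one_of_pos (by norm_num)
  have h2 := Real.log_two_lt_d9
  rw [h]
  linarith

theorem pw (k : ℕ) : ((k : ℝ) + 3) ^ 3 * (0.067 ^ k) ^ 2 ≤ 27 := by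
  induction k with
  | zero => norm_num
  | succ k ih =>
    have h1 : ((k : ℝ) + 1 + 3) ^ 3 ≤ (64 / 27) * ((k : ℝ) + 3) ^ 3 := by
      have h : ((k : ℝ) + 1 + 3) ≤ 4 / 3 * ((k : ℝ) + 3) := by
        have : (0 : ℝ) ≤ k := Nat.cast_nonneg k
        linarith
      calc ((k : ℝ) + 1 + 3) ^ 3 ≤ (4 / 3 * ((k : ℝ) + 3)) ^ 3 := pow_le_pow_left₀ (by positivity) h 3
        _ = _ := by ring
    push_cast
    calc ((k : ℝ) + 1 + 3) ^ 3 * (0.067 ^ (k + 1)) ^ 2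
        ≤ ((64 / 27) * ((k : ℝ) + 3) ^ 3) * (0.067 ^ (k + 1)) ^ 2 :=
          mul_le_mul_of_nonneg_right h1 (by positivity)
      _ = (64 / 27 * 0.067 ^ 2) * (((k : ℝ) + 3) ^ 3 * (0.067 ^ k) ^ 2) := by ring
      _ ≤ 1 * (((k : ℝ) + 3) ^ 3 * (0.067 ^ k) ^ 2) :=
          mul_le_mul_of_nonneg_right (by norm_num) (by positivity)
      _ ≤ 27 := by linarith

/-- `a^(-3/2) 0.067^(n-3) ≤ 5.2`. -/
theorem apw {n : ℕ} (hn : 3 ≤ n) {a : ℝ} (ha : 0 < a) (hna : 1 ≤ n * a) :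
    1 / (a * √a) * 0.067 ^ (n - 3) ≤ 5.2 := by
  obtain ⟨k, rfl⟩ := Nat.exists_eq_add_of_le hn
  have hk := pw k
  have h3 : 3 + k - 3 = k := by omega
  rw [h3]
  push_cast at hna
  refine (pow_le_pow_iff_left₀ (by positivity) (by positivity) (two_ne_zero)).1 ?_
  have hr : √a ^ 2 = a := Real.sq_sqrt ha.le
  have h4 : (1 / (a * √a) * 0.067 ^ k) ^ 2 = (1 / a) ^ 3 * (0.067 ^ k) ^ 2 := by
    rw [mul_pow, div_pow, mul_pow, hr]
    field_simp
  rw [h4]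
  have h5 : 1 / a ≤ (k : ℝ) + 3 := by
    rw [div_le_iff₀ ha]
    linarith
  have h6 : (1 / a) ^ 3 ≤ ((k : ℝ) + 3) ^ 3 := pow_le_pow_left₀ (by positivity) h5 3
  calc (1 / a) ^ 3 * (0.067 ^ k) ^ 2 ≤ ((k : ℝ) + 3) ^ 3 * (0.067 ^ k) ^ 2 :=
        mul_le_mul_of_nonneg_right h6 (by positivity)
    _ ≤ 27 := hk
    _ ≤ 5.2 ^ 2 := by norm_num

/-- first part of the integral -/
theorem int1 {r X : ℝ} (hr : 0 < r) (hX : 2.6 ≤ r * X) (hXY : X ≤ 23.4 / r) :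
    ∫ ξ in X..(23.4 / r), (0.0193 / (r * ξ) + 0.1037 / (r * ξ) ^ 2 + 0.549 / (r * ξ) ^ 4) ≤
      0.0885 / r := by
  have hX0 : 0 < X := by
    by_contra h
    push Not at h
    nlinarith
  have hpos : ∀ x ∈ uIcc X (23.4 / r), 0 < x := fun x hx => by
    rw [uIcc_of_le hXY] at hx
    linarith [hx.1]
  have hcont : ContinuousOn (fun ξ : ℝ => 0.0193 / (r * ξ) + 0.1037 / (r * ξ) ^ 2 +
      0.549 / (r * ξ) ^ 4) (uIcc X (23.4 / r)) := by
    refine ContinuousOn.add (ContinuousOn.add ?_ ?_) ?_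
    · exact continuousOn_const.div (by fun_prop) fun x hx => by
        have := hpos x hx
        positivity
    · exact continuousOn_const.div (by fun_prop) fun x hx => by
        have := hpos x hx
        positivity
    · exact continuousOn_const.div (by fun_prop) fun x hx => by
        have := hpos x hx
        positivity
  have hF : ∀ x ∈ uIcc X (23.4 / r), HasDerivAt (fun ξ : ℝ => 0.0193 / r * Real.log ξ -
      0.1037 / r ^ 2 * ξ⁻¹ - 0.183 / r ^ 4 * (ξ⁻¹) ^ 3)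
      (0.0193 / (r * x) + 0.1037 / (r * x) ^ 2 + 0.549 / (r * x) ^ 4) x := fun x hx => by
    have hx0 := hpos x hx
    have h1 := (Real.hasDerivAt_log hx0.ne').const_mul (0.0193 / r)
    have h2 := (hasDerivAt_inv hx0.ne').const_mul (0.1037 / r ^ 2)
    have h3 := ((hasDerivAt_inv hx0.ne').pow 3).const_mul (0.183 / r ^ 4)
    refine ((h1.sub h2).sub h3).congr_deriv ?_
    have e : x⁻¹ ^ (3 - 1) = (x ^ 2)⁻¹ := by simp
    rw [e]
    push_cast
    field_simp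
    ring
  rw [intervalIntegral.integral_eq_sub_of_hasDerivAt hF hcont.intervalIntegrable]
  have hlog : Real.log (23.4 / r) - Real.log X ≤ 2.2045 := by
    rw [← Real.log_div (by positivity) hX0.ne']
    refine (Real.log_le_log (by positivity) ?_).trans log_nine
    rw [div_div, div_le_iff₀ (by positivity)]
    nlinarith
  have hi : X⁻¹ ≤ r / 2.6 := by
    rw [inv_le_comm₀ hX0 (by positivity), inv_div, div_le_iff₀ hr]
    linarith
  have hi3 : (X⁻¹) ^ 3 ≤ (r / 2.6) ^ 3 := pow_le_pow_left₀ (by positivity) hi 3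
  have e1 : 0.0193 / r * (Real.log (23.4 / r) - Real.log X) ≤ 0.0193 / r * 2.2045 :=
    mul_le_mul_of_nonneg_left hlog (by positivity)
  have e2 : 0.1037 / r ^ 2 * X⁻¹ ≤ 0.1037 / r ^ 2 * (r / 2.6) :=
    mul_le_mul_of_nonneg_left hi (by positivity)
  have e3 : 0.183 / r ^ 4 * (X⁻¹) ^ 3 ≤ 0.183 / r ^ 4 * (r / 2.6) ^ 3 :=
    mul_le_mul_of_nonneg_left hi3 (by positivity)
  have e4 : 0.1037 / r ^ 2 * (23.4 / r)⁻¹ = 0.1037 / 23.4 / r := by
    field_simp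
  have e5 : 0 ≤ 0.183 / r ^ 4 * ((23.4 / r)⁻¹) ^ 3 := by positivity
  have e6 : 0.0193 / r * 2.2045 + 0.1037 / r ^ 2 * (r / 2.6) + 0.183 / r ^ 4 * (r / 2.6) ^ 3 -
      0.1037 / 23.4 / r = (0.0193 * 2.2045 + 0.1037 / 2.6 + 0.183 / 2.6 ^ 3 - 0.1037 / 23.4) / r := by
    field_simp
  have e7 : (0.0193 * 2.2045 + 0.1037 / 2.6 + 0.183 / 2.6 ^ 3 - 0.1037 / 23.4) / r ≤ 0.0885 / r :=
    div_le_div_of_nonneg_right (by norm_num) hr.le
  linarith

/-- second part of the integral -/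
theorem int2 {r : ℝ} (hr : 0 < r) :
    IntegrableOn (fun ξ : ℝ => 0.5731 / (r * ξ) ^ 2) (Ioi (23.4 / r)) ∧
    ∫ ξ in Ioi (23.4 / r), 0.5731 / (r * ξ) ^ 2 = 0.5731 / 23.4 / r := by
  have hY : 0 < 23.4 / r := by positivity
  have hF : ∀ x ∈ Ici (23.4 / r), HasDerivAt (fun ξ : ℝ => -(0.5731 / r ^ 2 * ξ⁻¹))
      (0.5731 / (r * x) ^ 2) x := fun x hx => by
    have hx0 : 0 < x := lt_of_lt_of_le hY hx
    refine ((hasDerivAt_inv hx0.ne').const_mul (0.5731 / r ^ 2)).neg.congr_deriv ?_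
    field_simp
  have hlim : Tendsto (fun ξ : ℝ => -(0.5731 / r ^ 2 * ξ⁻¹)) atTop (𝓝 0) := by
    have := (tendsto_inv_atTop_zero.const_mul (0.5731 / r ^ 2)).neg
    simpa using this
  have hnn : ∀ x ∈ Ioi (23.4 / r), 0 ≤ 0.5731 / (r * x) ^ 2 := fun x _ => by positivity
  refine ⟨integrableOn_Ioi_deriv_of_nonneg' hF hnn hlim, ?_⟩
  rw [integral_Ioi_of_hasDerivAt_of_nonneg' hF hnn hlim]
  field_simp
  norm_num

theorem gK3 : GK3 := by
  intro θ hN n t hS i j m hmax hmin hij hmi hmj hm2 hm0 h8 hint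
  have ha : 0 < t i := lt_of_lt_of_le hm0 (hmax m)
  have hcard : 3 ≤ n := by
    have hi := i.isLt
    have hj := j.isLt
    have hm := m.isLt
    have h1 : (i : ℕ) ≠ j := fun h => hij (Fin.ext h)
    have h2 : (m : ℕ) ≠ i := fun h => hmi (Fin.ext h)
    have h3 : (m : ℕ) ≠ j := fun h => hmj (Fin.ext h)
    omega
  have hna : 1 ≤ (n : ℝ) * t i := by
    rw [← hS.2]
    refine (Finset.sum_le_sum fun l _ => hmax l).trans ?_
    simp
  have hap := apw hcard ha hna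
  set r := √(t i) with hrd
  have hr : 0 < r := Real.sqrt_pos.2 ha
  have hr2 : r ^ 2 = t i := Real.sq_sqrt ha.le
  have hc : 0 < √(t m) := Real.sqrt_pos.2 hm0
  have hc2 : √(t m) ^ 2 = t m := Real.sq_sqrt hm0.le
  have hcr : √(t m) ≤ r := Real.sqrt_le_sqrt (hmax m)
  set X := 2.6 / √(t m) with hXd
  have hX0 : 0 < X := by positivity
  have hXr : 2.6 ≤ r * X := by
    rw [hXd, mul_div_assoc', le_div_iff₀ hc]
    nlinarith
  have hXY : X ≤ 23.4 / r := by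
    rw [hXd, div_le_div_iff₀ hc hr]
    have h : 0.8 * r ^ 2 ≤ √(t m) ^ 2 := by
      rw [hr2, hc2]
      exact h8.trans (hmin m)
    nlinarith
  -- the two pointwise bounds
  have hmξ : ∀ ξ, X ≤ ξ → 6.76 ≤ t m * ξ ^ 2 := fun ξ hξ => by
    have h1 : 2.6 ≤ √(t m) * ξ := by
      rw [hXd, div_le_iff₀ hc] at hξ
      linarith
    have h2 : (√(t m) * ξ) ^ 2 = t m * ξ ^ 2 := by rw [mul_pow, hc2]
    nlinarith
  have hvξ : ∀ ξ, X ≤ ξ → 2.6 ≤ r * ξ := fun ξ hξ =>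
    hXr.trans (mul_le_mul_of_nonneg_left hξ hr.le)
  set Q := (t i - t j) / t i * 0.067 ^ (n - 3) with hQd
  have hQ : 0 ≤ Q := mul_nonneg (div_nonneg (sub_nonneg.2 (hmax j)) ha.le) (by positivity)
  have p1 : ∀ ξ, X ≤ ξ → -(Q * (0.0193 / (r * ξ) + 0.1037 / (r * ξ) ^ 2 +
      0.549 / (r * ξ) ^ 4)) ≤ KJ θ t i j ξ := fun ξ hξ => by
    have hv := hvξ ξ hξ
    have hv0 : 0 < r * ξ := by linarith
    have h := KJ_bd hN hmin hij hmi hmj hmax ha h8 hv (hmξ ξ hξ)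
      (fun s hs => f1_one hN hv hs)
    have h2 := neg_le_of_abs_le h
    refine le_trans (neg_le_neg ?_) h2
    refine mul_le_mul_of_nonneg_left ?_ hQ
    have e : 0.1788 * (3.07 / (r * ξ) ^ 4 + 0.10767 / (r * ξ)) + 0.1037 / (r * ξ) ^ 2 =
      0.1788 * 0.10767 / (r * ξ) + 0.1037 / (r * ξ) ^ 2 + 0.1788 * 3.07 / (r * ξ) ^ 4 := by ring
    rw [e]
    have e1 : 0.1788 * 0.10767 / (r * ξ) ≤ 0.0193 / (r * ξ) :=
      div_le_div_of_nonneg_right (by norm_num) hv0.le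
    have e2 : 0.1788 * 3.07 / (r * ξ) ^ 4 ≤ 0.549 / (r * ξ) ^ 4 :=
      div_le_div_of_nonneg_right (by norm_num) (by positivity)
    linarith
  have p2 : ∀ ξ, X ≤ ξ → -(Q * (0.5731 / (r * ξ) ^ 2)) ≤ KJ θ t i j ξ := fun ξ hξ => by
    have hv := hvξ ξ hξ
    have hv0 : 0 < r * ξ := by linarith
    have h := KJ_bd hN hmin hij hmi hmj hmax ha h8 hv (hmξ ξ hξ)
      (fun s hs => f1_two hN hv hs)
    have h2 := neg_le_of_abs_le h
    refine le_trans (neg_le_neg ?_) h2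
    refine mul_le_mul_of_nonneg_left ?_ hQ
    have e : 0.1788 * (2.625 / (r * ξ) ^ 2) + 0.1037 / (r * ξ) ^ 2 =
      (0.1788 * 2.625 + 0.1037) / (r * ξ) ^ 2 := by ring
    rw [e]
    exact div_le_div_of_nonneg_right (by norm_num) (by positivity)
  -- the integral
  have hu : Ioc X (23.4 / r) ∪ Ioi (23.4 / r) = Ioi X := Ioc_union_Ioi_eq_Ioi hXY
  have hi1 : IntegrableOn (KJ θ t i j) (Ioc X (23.4 / r)) :=
    hint.mono_set (hu ▸ subset_union_left)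
  have hi2 : IntegrableOn (KJ θ t i j) (Ioi (23.4 / r)) :=
    hint.mono_set (hu ▸ subset_union_right)
  have hsplit : ∫ ξ in Ioi X, KJ θ t i j ξ = (∫ ξ in Ioc X (23.4 / r), KJ θ t i j ξ) +
      ∫ ξ in Ioi (23.4 / r), KJ θ t i j ξ := by
    rw [← hu]
    exact setIntegral_union (Ioc_disjoint_Ioi le_rfl) measurableSet_Ioi hi1 hi2
  have hg1 : IntegrableOn (fun ξ => Q * (0.0193 / (r * ξ) + 0.1037 / (r * ξ) ^ 2 +
      0.549 / (r * ξ) ^ 4)) (Ioc X (23.4 / r)) := by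
    refine (ContinuousOn.integrableOn_Icc ?_).mono_set Ioc_subset_Icc_self
    refine continuousOn_const.mul (ContinuousOn.add (ContinuousOn.add ?_ ?_) ?_)
    · exact continuousOn_const.div (by fun_prop) fun x hx => by
        have : 0 < x := lt_of_lt_of_le hX0 hx.1
        positivity
    · exact continuousOn_const.div (by fun_prop) fun x hx => by
        have : 0 < x := lt_of_lt_of_le hX0 hx.1
        positivity
    · exact continuousOn_const.div (by fun_prop) fun x hx => by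
        have : 0 < x := lt_of_lt_of_le hX0 hx.1
        positivity
  have I1 : -(Q * (0.0885 / r)) ≤ ∫ ξ in Ioc X (23.4 / r), KJ θ t i j ξ := by
    have h1 : ∫ ξ in Ioc X (23.4 / r), -(Q * (0.0193 / (r * ξ) + 0.1037 / (r * ξ) ^ 2 +
      0.549 / (r * ξ) ^ 4)) ≤ ∫ ξ in Ioc X (23.4 / r), KJ θ t i j ξ :=
      setIntegral_mono_on hg1.neg hi1 measurableSet_Ioc fun x hx => p1 x hx.1.le
    refine le_trans ?_ h1
    rw [integral_neg, integral_const_mul]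
    have h2 := int1 hr hXr hXY
    rw [intervalIntegral.integral_of_le hXY] at h2
    exact neg_le_neg (mul_le_mul_of_nonneg_left h2 hQ)
  have I2 : -(Q * (0.5731 / 23.4 / r)) ≤ ∫ ξ in Ioi (23.4 / r), KJ θ t i j ξ := by
    have h1 : ∫ ξ in Ioi (23.4 / r), -(Q * (0.5731 / (r * ξ) ^ 2)) ≤
        ∫ ξ in Ioi (23.4 / r), KJ θ t i j ξ :=
      setIntegral_mono_on ((int2 hr).1.const_mul Q).neg hi2 measurableSet_Ioi
        fun x hx => p2 x (hXY.trans (le_of_lt hx))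
    refine le_trans ?_ h1
    rw [integral_neg, integral_const_mul, (int2 hr).2]
  rw [hsplit]
  have hfin : Q * (0.0885 / r) + Q * (0.5731 / 23.4 / r) ≤ 0.72 * (t i - t j) := by
    have e : Q * (0.0885 / r) + Q * (0.5731 / 23.4 / r) =
        (t i - t j) * (0.0885 + 0.5731 / 23.4) * (1 / (t i * r) * 0.067 ^ (n - 3)) := by
      rw [hQd]
      field_simp
    rw [e]
    calc (t i - t j) * (0.0885 + 0.5731 / 23.4) * (1 / (t i * r) * 0.067 ^ (n - 3))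
        ≤ (t i - t j) * (0.0885 + 0.5731 / 23.4) * 5.2 :=
          mul_le_mul_of_nonneg_left hap
            (mul_nonneg (sub_nonneg.2 (hmax j)) (by norm_num))
      _ = (t i - t j) * ((0.0885 + 0.5731 / 23.4) * 5.2) := by ring
      _ ≤ (t i - t j) * 0.72 :=
          mul_le_mul_of_nonneg_left (by norm_num) (sub_nonneg.2 (hmax j))
      _ = _ := by ring
  linarith

end Pool.Agent.Helper9.NR
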